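import Pool.Agent.Helper40.WD.Stmts

/-! # Row THX -/

set_option autoImplicit false

open Filter Topology Pool.Agent.Helper40.WD

namespace Pool.Agent.Helper90.WD

theorem st_THX : ST_THX := by
  intro D w hw
  have hb : ∀ p : Gi, |(w : LI) p| ≤ 1 := fun p => by
    have h1 := lp.norm_apply_le_norm (p := ⊤) (by simp) (w : LI) p
    rw [Real.norm_eq_abs] at h1
    exact h1.trans hw
  have hloc : ∀ (k : ℕ) (j : Fin (mm (k + 1))),
    3 * ∑ g, D.T k j g * (w : LI) ⟨k, g⟩ = ∑ g, D.S (k + 1) j g * (w : LI) ⟨k + 1, g⟩ := w.2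
  refine ⟨⟨fun n k g => ?_, fun n k g h => ?_, fun n k j h => ?_, fun c hc M => ?_⟩,
    fun N => ⟨fun n k g => ?_, fun n k g h => ?_, fun n k j h => ?_, fun c hc M => ?_⟩⟩
  · change |if k ≤ n then (w : LI) ⟨k, g⟩ else 0| ≤ 1
    split_ifs
    · exact hb _
    · simp
  · change (if k ≤ n then (w : LI) ⟨k, g⟩ else 0) = 0
    rw [if_neg (by omega)]
  · change 3 * ∑ g, D.T k j g * (if k ≤ n then (w : LI) ⟨k, g⟩ else 0) =
      ∑ g, D.S (k + 1) j g * (if k + 1 ≤ n then (w : LI) ⟨k + 1, g⟩ else 0)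
    simp only [if_pos h, if_pos (show k ≤ n by omega)]
    exact hloc k j
  · have h0 : ∀ n ∈ Finset.range M, |thI D w (n + 1) (c n).1 (c n).2 -
        thI D w n (c n).1 (c n).2| = 0 := by
      intro n _
      change |(if (c n).1 ≤ n + 1 then (w : LI) ⟨(c n).1, (c n).2⟩ else 0) -
        (if (c n).1 ≤ n then (w : LI) ⟨(c n).1, (c n).2⟩ else 0)| = 0
      have := hc n
      rw [if_pos (by omega), if_pos this]
      simp
    rw [Finset.sum_eq_zero h0]
    exact zero_le_one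
  · change |if k ≤ n ∧ n ≤ N then (w : LI) ⟨k, g⟩ else 0| ≤ 1
    split_ifs
    · exact hb _
    · simp
  · change (if k ≤ n ∧ n ≤ N then (w : LI) ⟨k, g⟩ else 0) = 0
    rw [if_neg (by omega)]
  · change 3 * ∑ g, D.T k j g * (if k ≤ n ∧ n ≤ N then (w : LI) ⟨k, g⟩ else 0) =
      ∑ g, D.S (k + 1) j g * (if k + 1 ≤ n ∧ n ≤ N then (w : LI) ⟨k + 1, g⟩ else 0)
    by_cases hN : n ≤ N
    · simp only [if_pos (show k + 1 ≤ n ∧ n ≤ N from ⟨h, hN⟩),
        if_pos (show k ≤ n ∧ n ≤ N from ⟨by omega, hN⟩)]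
      exact hloc k j
    · simp [hN]
  · have h0 : ∀ n ∈ Finset.range M, |th D N w (n + 1) (c n).1 (c n).2 -
        th D N w n (c n).1 (c n).2| ≤ if n = N then 1 else 0 := by
      intro n _
      change |(if (c n).1 ≤ n + 1 ∧ n + 1 ≤ N then (w : LI) ⟨(c n).1, (c n).2⟩ else 0) -
        (if (c n).1 ≤ n ∧ n ≤ N then (w : LI) ⟨(c n).1, (c n).2⟩ else 0)| ≤ if n = N then 1 else 0
      have h1 := hc n
      by_cases h2 : n = N
      · rw [if_pos h2, if_neg (by omega), if_pos ⟨h1, h2.le⟩, zero_sub, abs_neg]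
        exact hb _
      · rw [if_neg h2]
        by_cases h3 : n + 1 ≤ N
        · rw [if_pos ⟨by omega, h3⟩, if_pos ⟨h1, by omega⟩]
          simp
        · rw [if_neg (by omega), if_neg (by omega)]
          simp
    refine (Finset.sum_le_sum h0).trans ?_
    rw [Finset.sum_ite_eq']
    split_ifs <;> norm_num

end Pool.Agent.Helper90.WD
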